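import Pool.Agent.R597.RI.Cls

/-!
# Injectivity of regulators: smooth proper varieties and smooth affine cubic hypersurfaces

`R.Inj X i j`: the regulator of `X` is injective in the bidegree `(i, j)`. For smooth proper `X` over
`ℚ` the statement `R.Inj X (2i) i` says that the Abel-Jacobi map is injective modulo torsion on
homologically trivial cycles of codimension `i`. `C` is a class of smooth separated `K`-schemes of
finite type of pure dimension, for example the smooth proper ones; `R.InjFor C 0` is then Q1.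
-/

set_option autoImplicit false

open CategoryTheory CategoryTheory.Limits AlgebraicGeometry MvPolynomial
open Pool.Agent.R904.CU Pool.Agent.R597.RD Pool.Agent.R597.RI

namespace Pool.Agent.Results.MP_e28333_ag.AffineCubics

theorem result (K : Type) [Field K] (R : Reg K) (hR : IsReg R) :
    -- injectivity for `V(g)` in `(i, j)` and for `∑ yₖ gₖ = 1` in `(i + 2c - 1, j + c)`
    (∀ (σ κ : Type) [Fintype σ] [Fintype κ] (g : κ → MvPolynomial σ K) (c d : ℕ),
      Fintype.card σ = d + c → IsSm d (vScheme g) → ∀ i j : ℤ, 2 ≤ i + 2 * c - 1 →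
      (R.Inj (vScheme g) i j ↔ R.Inj (Over.mk (hyp (bigPoly g))) (i + 2 * c - 1) (j + c))) ∧
    (Jouanolou K →
      -- a class `C` on the diagonal `2j - i = m`, and cubic hypersurfaces
      (∀ (C : Sch K → Prop), (∀ X, C X → ∃ d, IsSm d X) → ∀ D : Set ℤ, (∀ B : ℤ, ∃ q ∈ D, B ≤ q) →
        ∀ m : ℤ, R.InjFor C m ↔ R.CubicInjFor C D (m + 1)) ∧
      -- all smooth schemes: shifts of the bidegree
      (∀ i j a b : ℤ, b ≤ a → a < 2 * b → R.AllInj (i + a) (j + b) → R.AllInj i j) ∧
      -- all smooth schemes, all bidegrees, and cubic hypersurfaces in a sequence of bidegrees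
      (∀ T : Set (ℤ × ℤ), (∀ B : ℤ, ∃ p ∈ T, B ≤ 2 * p.1 - 3 * p.2 ∧ B ≤ 2 * p.2 - p.1) →
        ((∀ i j : ℤ, R.AllInj i j) ↔ ∀ p ∈ T, R.CubicInj p.1 p.2))) := by
  refine ⟨fun σ κ _ _ g c d hcard hZ i j h2 => (inj_cubic hR g hcard hZ rfl rfl h2).symm,
    fun hJ => ⟨fun C hC D hD m => class_iff_cubic hR hJ hC hD m,
      fun i j a b h1 h2 h => shift_ab hR hJ h1 h2 h,
      fun T hT => ⟨fun h p _ => cubic_of_all (h p.1 p.2), q1_of_cubic hR hJ hT⟩⟩⟩

end Pool.Agent.Results.MP_e28333_ag.AffineCubics
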