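import Pool.Agent.R910.Pow.AJPow

/-!
# MP_e28333_ag: injectivity of the Abel-Jacobi map over `ℚ`, from powers of one divisor class

All varieties are smooth, projective and geometrically integral over `ℚ`, and `CH ^ m (X)` is the Chow group with
rational coefficients; the Abel-Jacobi map goes from the homologically trivial classes in `CH ^ m (X)` to the
intermediate Jacobian `J ^ m` of the complex variety `X(ℂ)`, tensored with `ℚ` (it is Griffiths's map composed with the
base change from `ℚ` to `ℂ`). Its injectivity says that the kernel of the integral Abel-Jacobi map is torsion.

**Theorem.** These are equivalent.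

1. The Abel-Jacobi map is injective on the homologically trivial classes in `CH ^ m (X)` for all varieties `X` over `ℚ`
   and all `m`.
2. The same for all rational varieties over `ℚ`.
3. If a linear combination `∑ a_s D_s ^ m` of powers of divisor classes on a rational variety over `ℚ` is homologically
   trivial and in the kernel of the Abel-Jacobi map, then it is `0`.
4. If `Y` is a rational variety over `ℚ`, `D` is a divisor class on `Y` and `D ^ r` is homologically trivial and in the
   kernel of the Abel-Jacobi map, then `D ^ r = 0` in `CH ^ r (Y)`.

(For the question as it is asked, with all smooth proper `X` over `ℚ`: by Chow's lemma and Hironaka `X` is dominated by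
a smooth projective `X'` with a birational morphism `f : X' → X`, and `f_* f^* = 1`; a connected `X` which is not
geometrically integral is a geometrically integral variety over a number field `L`, and the restriction of scalars of
`X` from `L` to `ℚ` contains the motive of `X`, if `X` has a zero-cycle of degree one with rational coefficients, which
is always the case.) The method is that of `MP_a1cc03_ag.DivisorPowers` and of the other results of helper910 which are
imported here.

In the Lean statement `𝒮` is the set of all varieties and `ℛ` the set of all rational varieties (or `ℛ = 𝒮`), and these
structures collect the known theorems which are used.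

* `AJData.IsFunctorial`: the Abel-Jacobi map is compatible with pull-back, push-forward and products.
* `HasHulls`: the variety `X` is birational to a hypersurface in `ℙ ^ (n + 1)`; by Hironaka there is a smooth divisor
  `X'` on a rational variety `B'` of dimension `n + 1` with a birational morphism `X' → X`. Let `B` be the blow-up of
  `B' × ℙ ^ 1` in `X' × 0` and `E` its exceptional divisor. Then `p_* i^* i_* p^* w = - w` for `p : E → X' → X` and
  `i : E → B`.
* `HasProjectiveBundles`: vector bundles, their Chern classes and Chern characters (with the identities of Newton),
  sums, tensor products, Serre's theorem (for `V` there is a line bundle `L` such that `V ⊗ L` is a sub-bundle of a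
  trivial bundle), the isomorphism `ch : K_0(X) → CH(X)` (rationally), and projective bundles: they are rational for
  rational `X`, `q_* ξ ^ (r - 1) = 1`, `q_* ξ ^ i = 0` for `i < r - 1`, `∑ c_i ξ ^ (r - i) = 0`.
-/

open CategoryTheory AlgebraicGeometry
open Pool.Agent.H914 Pool.Agent.H914.VarClass Pool.Agent.H914.VarClass.Obj

universe v w w'

namespace Pool.Agent.Results.MP_e28333_ag.PowersOfOneDivisor

open Pool.Agent.R903 Pool.Agent.R910.Nil Pool.Agent.R910.Pow

/-- **The Abel-Jacobi maps for varieties over `ℚ` are injective, up to torsion, if and only if they are injective on
powers of one divisor class on rational varieties.** -/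
theorem result {𝒱 : VarClass ℚ} {C : ChowTheory.{0, v} 𝒱}
    (A : AJData.{0, v, w} C) (hA : A.IsFunctorial) (B : BundleData.{0, v, w'} C)
    (𝒮 ℛ : Set 𝒱.Obj) (hH : HasHulls C 𝒮 ℛ) (hR : HasProjectiveBundles B ℛ) :
    List.TFAE [AJInjective A 𝒮, AJInjective A ℛ, AJInjectiveForPolynomials A ℛ,
      AJInjectiveForPowers A ℛ] :=
  ajInjective_tfae_powers hA hH hR

end Pool.Agent.Results.MP_e28333_ag.PowersOfOneDivisor
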