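import Pool.Agent.R898.AKM

/-!
# Injectivity of the Abel–Jacobi map: primitive cycles in the middle dimension

The setting: `𝒱` is a class of smooth projective varieties over a field, closed under products, `C`
stands for the Chow groups with rational coefficients, `W` for a Weil cohomology theory, for example
singular cohomology; `CH^m(X)_hom = homTriv W X m`. `A : AJMap W` has the formal properties of the
Abel–Jacobi map (functoriality for correspondences; a correspondence which vanishes on `H^(2m-1)(X)`
acts as zero on the intermediate Jacobian `J^m(X)`). Examples are Griffiths's Abel–Jacobi map composed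
with the base change from the rational numbers to the complex numbers, with rational coefficients, and
the `p`-adic étale Abel–Jacobi map.

* `LefStd W X D`: `D` is a divisor class and the standard conjecture of Lefschetz type holds for
  `(X, D)`.
* A *Lefschetz system* for `(X, D)` (`IsSystem`) is an `sl₂`-triple `(Δ_* D, ∑ (j - n) π_j, Λ)` of
  correspondences, the `π_j` being orthogonal idempotents with sum the diagonal. Such systems are known
  for abelian varieties and symmetric ample `D` (Deninger–Murre, Künnemann), for curves and `D` a
  multiple of a rational point, and for products of such pairs with the class `p_1^* D + p_2^* E`.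
  `Good`: there is such a system and `LefStd` holds (it does in the examples).
* `LefOnto W X D`: the maps `D^(n+1-2m) : CH^m(X)_hom → CH^(n+1-m)(X)_hom` are surjective, for all
  `m ≤ (n+1)/2`, `n = dim X`. `ArithLef W X D`: they are bijective (Beilinson's conjecture).
* `AJInjPrim A X D`: if `dim X = 2m - 1` then the Abel–Jacobi map is injective on the `x` in
  `CH^m(X)_hom` with `D x = 0`.

The theorem: let `S` be a class of good pairs, closed under products, with members of all positive
dimensions, such that each `X` in `𝒱` is dominated by a `Z` with `(Z, D)` in `S` (for example the
products of curves with a rational point, with `𝒱` the varieties dominated by them). The following are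
equivalent.

1. The Abel–Jacobi map is injective on `CH^m(X)_hom` for all `X` in `𝒱` and all `m`.
2. `LefOnto` and `AJInjPrim` hold for the pairs in `S`.
3. `ArithLef` and `AJInjPrim` hold for the pairs in `S`.
4. `LefOnto` and `AJInjPrim` hold for all `X` in `𝒱` and all `D` with `LefStd`.
-/

open Pool.Agent.H914 Pool.Agent.R903 Pool.Agent.R898.HL Pool.Agent.R898.AK

universe u v w

/-- Injectivity of the Abel–Jacobi map and primitive cycles in the middle dimension. -/
theorem Pool.Agent.Results.MP_e28333_ag.PrimitiveCycles.result {k : Type u} [Field k]
    {𝒱 : VarClass k} (C : ChowTheory.{u, v} 𝒱) (hPol : C.Polarized) (W : WeilTheory.{u, v, w} C)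
    (A : AJMap W) (S : ∀ X : 𝒱.Obj, C.CH X → Prop) (hS : IsFullClass W S) :
    [∀ (X : 𝒱.Obj) (m : ℕ), AJInj A X m,
      ∀ X D, S X D → LefOnto W X D ∧ AJInjPrim A X D,
      ∀ X D, S X D → ArithLef W X D ∧ AJInjPrim A X D,
      ∀ (X : 𝒱.Obj) (D : C.CH X), LefStd W X D → LefOnto W X D ∧ AJInjPrim A X D].TFAE :=
  tfae hPol A hS
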