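import Pool.Agent.R368.AJZ.Main

/-!
# Injectivity of the Abel–Jacobi map on zero-cycles

Let `𝒱` be a class of smooth projective varieties over a field `k` (the rational numbers, in the
problem) which is closed under products, with Chow groups `C` (rational coefficients), a Weil
cohomology theory `W` and Abel–Jacobi maps `A` with the usual formal properties. Assume the known facts
`HasOneCycleFacts` and `InjectiveOnDivisors` (the case `i = 1` of Q1).

For each `X` in `𝒱` of dimension `n > 0` the following are equivalent:

1. The Abel–Jacobi map is injective on `CH^n(X)_hom` (Q1 for `X` and `i = n`).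
2. `D^(n-1) : CH^1(X)_hom → CH^n(X)_hom` is bijective for all divisor classes `D` for which the
   inverse of `D^(n-1) : H^1(X) → H^(2n-1)(X)` is algebraic (known for ample `D`).
3. It is surjective for some such `D`.
4. Classes in `CH^n(X × X)` which act as zero on `H^(2n-1)(X)` kill `CH^n(X)_hom`.
5. For all curves `Γ`, classes in `CH^n(Γ × X)` which act as zero on `H^1(Γ)` kill `CH^1(Γ)_hom`.

They hold for `X` if for all curves `Γ` homologically trivial self-correspondences of `Γ × X` of degree
zero kill `CH^(n+1)(Γ × X)_hom`. They hold for all `X` in `𝒱` if and only if for all `X` homologically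
trivial classes in `CH^n(X × X)` kill `CH^n(X)_hom`.
-/

open Pool.Agent.H914 Pool.Agent.R903 Pool.Agent.R368.Zero Pool.Agent.R368.K3 Pool.Agent.R368.AJZ

universe u v w

namespace Pool.Agent.Results.MP_e28333_ag.ZeroCyclesAndCurves

theorem result {k : Type u} [Field k] {𝒱 : VarClass k} {C : ChowTheory.{u, v} 𝒱}
    (W : WeilTheory.{u, v, w} C) (hF : HasOneCycleFacts W) (A : AbelJacobi W)
    (hA : InjectiveOnDivisors A) :
    (ForAll fun X : 𝒱.Obj => List.TFAE [InjectiveOnPoints A X, LefAll W X, LefSome W X,
      WeightKills W X, ForCurves fun Γ : 𝒱.Obj => CurveKills W Γ X]) ∧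
    (ForAll fun X : 𝒱.Obj => (ForCurves fun Γ : 𝒱.Obj => HomTrivKills W (Γ.prod X) (Γ.prod X)) →
      InjectiveOnPoints A X) ∧
    (ForAll (InjectiveOnPoints A) ↔ ForAll fun X : 𝒱.Obj => HomTrivKills W X X) :=
  ⟨fun _ hX => inj_tfae hF hA hX, fun _ hX => inj_of_products hF hA hX, inj_iff hF hA⟩

end Pool.Agent.Results.MP_e28333_ag.ZeroCyclesAndCurves
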